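import Pool.Agent.ASE.StmtsX
import Pool.Agent.Helper9_ASO.PPC

/-!
# Squad ASE, row PPC: continuity of the exact local part
-/

open scoped BigOperators

noncomputable section

namespace Pool.Agent.PP.SE.H62P

open Pool.Agent.Helper51_AWC Pool.Agent.Helper79_WRA Pool.Agent.PP Pool.Agent.PP.KF
open Pool.Agent.PP.K9 Pool.Agent.PP.K9.H97 Pool.Agent.PP.H75 Pool.Agent.PP.T3 Pool.Agent.PP.SO
open Pool.Agent.PP.SD Pool.Agent.PP.SO.H9P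

attribute [local instance] Ideal.Quotient.field

section mp

variable {V₀ : Type} [CommGroup V₀]

theorem mp_inv_mul {σ τ : MulAut V₀} {W W' : Subgroup V₀} (h1 : mp σ W = W') (h2 : mp τ W = W') :
    mp (σ⁻¹ * τ) W = W := by
  unfold mp at *
  have h3 : ∀ x : V₀, τ x ∈ W' ↔ x ∈ W := by
    intro x
    rw [← h2]
    constructor
    · rintro ⟨y, hy, e⟩
      have e' : τ y = τ x := e
      rw [← τ.injective e']
      exact hy
    · intro hx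
      exact ⟨x, hx, rfl⟩
  have h4 : ∀ x : V₀, σ x ∈ W' ↔ x ∈ W := by
    intro x
    rw [← h1]
    constructor
    · rintro ⟨y, hy, e⟩
      have e' : σ y = σ x := e
      rw [← σ.injective e']
      exact hy
    · intro hx
      exact ⟨x, hx, rfl⟩
  have h5 : ∀ x : V₀, σ ((σ⁻¹ * τ : MulAut V₀) x) = τ x := by
    intro x
    rw [MulAut.mul_apply, MulAut.apply_inv_self]
  have h6 : ∀ x : V₀, (σ⁻¹ * τ : MulAut V₀) x ∈ W ↔ x ∈ W := by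
    intro x
    rw [← h4, h5, h3]
  ext x
  constructor
  · rintro ⟨y, hy, rfl⟩
    exact (h6 y).2 hy
  · intro hx
    refine ⟨(σ⁻¹ * τ : MulAut V₀)⁻¹ x, ?_, ?_⟩
    · have h7 := h6 ((σ⁻¹ * τ : MulAut V₀)⁻¹ x)
      rw [MulAut.apply_inv_self] at h7
      exact h7.1 hx
    · change (σ⁻¹ * τ : MulAut V₀) ((σ⁻¹ * τ : MulAut V₀)⁻¹ x) = x
      rw [MulAut.apply_inv_self]

end mp

section eqs

variable {ℓ : ℕ} [Fact ℓ.Prime] {V₀ : Type} [CommGroup V₀] {n : ℕ} {E₀ : Subgroup (MulAut V₀)}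
  {fx fx' : Subgroup V₀ → MulAut V₀ → ℚ}

theorem ne_bot {W : Subgroup V₀} (h : Nat.card W = ℓ) : W ≠ ⊥ := by
  rintro rfl
  rw [Subgroup.card_bot] at h
  exact (Fact.out : ℓ.Prime).one_lt.ne h

theorem m13_eq (h : ∀ W, W ≠ ⊥ → ∀ g ∈ E₀, mp g W = W → fx' W g = fx W g) (c d : V₀)
    (L : Set (SO.SS n V₀)) : M13 ℓ E₀ fx' c d L = M13 ℓ E₀ fx c d L := by
  unfold M13
  refine finsum_congr fun w => finsum_congr fun hw => ?_
  obtain ⟨h1, h2, h3, -⟩ := hw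
  rw [h (pL L) (ne_bot h1) _ (E₀.mul_mem (E₀.inv_mem w.1.2) w.2.1.2) (mp_inv_mul h2 h3)]

theorem m12_eq (h : ∀ W, W ≠ ⊥ → ∀ g ∈ E₀, mp g W = W → fx' W g = fx W g) (κ : V₀)
    (L : Set (SO.SS n V₀)) : M12 ℓ E₀ fx' κ L = M12 ℓ E₀ fx κ L := by
  unfold M12
  refine finsum_congr fun w => finsum_congr fun hw => ?_
  obtain ⟨h1, h2, -⟩ := hw
  rw [h (aL κ L) (ne_bot h1) _ w.1.2 h2]

end eqs

theorem ppc : PpcStmt := by
  intro ℓ _ V₀ _ _ E₀ n c d fx F₁₃ F₁₂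
  classical
  have := Fintype.ofFinite V₀
  have : Finite (MulAut V₀) := inferInstance
  have := Fintype.ofFinite (MulAut V₀)
  obtain ⟨r13, hr13⟩ : ∃ r : Set (SO.SS n V₀) → ℚ, ∀ L,
      r L = mob F₁₃ L * (N13 E₀ c d L + M13 ℓ E₀ fx c d L) := ⟨_, fun _ => rfl⟩
  obtain ⟨r12, hr12⟩ : ∃ r : Set (SO.SS n V₀) × MulAut V₀ → ℚ, ∀ p,
      r p = mob F₁₂ p.1 * (N12 E₀ (c * p.2 d) p.1 + M12 ℓ E₀ fx (c * p.2 d) p.1) :=
    ⟨_, fun _ => rfl⟩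
  obtain ⟨K₀, hK₀⟩ := SOR.H3.exists_pow_fin ℓ
    ((Finset.univ : Finset (Set (SO.SS n V₀))).image r13 ∪
      (Finset.univ : Finset (Set (SO.SS n V₀) × MulAut V₀)).image r12)
  refine ⟨K₀, fun K hK U U' hU hU' hUU fx' hfx => ?_⟩
  have H : HU ℓ K U U' := ⟨hU, hU', hUU⟩
  have hpow : ∀ v : ℚ, (ℓ : ℚ) ^ K₀ * v ∈ SOR.Rl ℓ → (ℓ : ℚ) ^ K * v ∈ SOR.Rl ℓ := by
    intro v hv
    obtain ⟨j, rfl⟩ := Nat.exists_eq_add_of_le hK
    rw [add_comm, pow_add, mul_assoc]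
    exact mul_mem (lp_mem ℓ j) hv
  have h13 : ∀ L, (ℓ : ℚ) ^ K * r13 L ∈ SOR.Rl ℓ := fun L => hpow _ (hK₀ _
    (Finset.mem_union_left _ (Finset.mem_image_of_mem _ (Finset.mem_univ L))))
  have h12 : ∀ p, (ℓ : ℚ) ^ K * r12 p ∈ SOR.Rl ℓ := fun p => hpow _ (hK₀ _
    (Finset.mem_union_right _ (Finset.mem_image_of_mem _ (Finset.mem_univ p))))
  have hP : ∀ (U : Subgroup V₀ → ℚ) (fx : Subgroup V₀ → MulAut V₀ → ℚ),
      PPE ℓ E₀ U fx c d F₁₃ F₁₂ =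
      ∑ L ∈ Finset.univ.filter (fun L : Set (SO.SS n V₀) => pL L ≠ ⊥ ∧ qL L ≠ ⊥),
        (mob F₁₃ L * P13 ℓ E₀ U fx c d L + mob F₁₂ L * P12 ℓ E₀ U fx c d L) := fun U fx =>
    fin_P (fun L : Set (SO.SS n V₀) => pL L ≠ ⊥ ∧ qL L ≠ ⊥) _
  rw [hP, hP, ← Finset.sum_sub_distrib]
  refine sum_mem fun L hL => ?_
  obtain ⟨hp, hq⟩ := (Finset.mem_filter.1 hL).2
  -- the `13`-sums
  have e13 : ∀ U : Subgroup V₀ → ℚ, mob F₁₃ L * P13 ℓ E₀ U fx c d L =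
      r13 L * (ux U (pL L) c * ux U (qL L) d) := by
    intro U
    rw [hr13]
    unfold P13
    ring
  have e13' : P13 ℓ E₀ U' fx' c d L = P13 ℓ E₀ U' fx c d L := by
    unfold P13
    rw [m13_eq hfx]
  have g13 : r13 L * (ux U (pL L) c * ux U (qL L) d) -
      r13 L * (ux U' (pL L) c * ux U' (qL L) d) ∈ SOR.Rl ℓ :=
    ((ux_go H hp c).1.mul (ux_go H hq d).1).diff (h13 L)
  -- the `12`-sums
  have e12' : P12 ℓ E₀ U' fx' c d L = P12 ℓ E₀ U' fx c d L := by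
    unfold P12
    refine finsum_congr fun σ => finsum_congr fun _ => ?_
    rw [m12_eq hfx]
  have e12 : ∀ U : Subgroup V₀ → ℚ, mob F₁₂ L * P12 ℓ E₀ U fx c d L =
      ∑ σ ∈ Finset.univ.filter (fun σ : MulAut V₀ => σ ∈ EL E₀ L ∧ aL (c * σ d) L ≠ ⊥),
        r12 (L, σ) * (ux U (pL L) c * ux U (pL L) (σ d) * (ux U (pL L) (c * σ d))⁻¹ *
          ux U (aL (c * σ d) L) (c * σ d)) := by
    intro U
    have h1 : P12 ℓ E₀ U fx c d L =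
        ∑ σ ∈ Finset.univ.filter (fun σ : MulAut V₀ => σ ∈ EL E₀ L ∧ aL (c * σ d) L ≠ ⊥),
          cS U c d σ (pL L) * (ux U (aL (c * σ d) L) (c * σ d) *
            (N12 E₀ (c * σ d) L + M12 ℓ E₀ fx (c * σ d) L)) :=
      fin_P (fun σ : MulAut V₀ => σ ∈ EL E₀ L ∧ aL (c * σ d) L ≠ ⊥) _
    rw [h1, Finset.mul_sum]
    refine Finset.sum_congr rfl fun σ _ => ?_
    rw [hr12]
    unfold cS
    rw [div_eq_mul_inv]
    ring
  have g12 : (∑ σ ∈ Finset.univ.filter (fun σ : MulAut V₀ => σ ∈ EL E₀ L ∧ aL (c * σ d) L ≠ ⊥),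
        r12 (L, σ) * (ux U (pL L) c * ux U (pL L) (σ d) * (ux U (pL L) (c * σ d))⁻¹ *
          ux U (aL (c * σ d) L) (c * σ d))) -
      (∑ σ ∈ Finset.univ.filter (fun σ : MulAut V₀ => σ ∈ EL E₀ L ∧ aL (c * σ d) L ≠ ⊥),
        r12 (L, σ) * (ux U' (pL L) c * ux U' (pL L) (σ d) * (ux U' (pL L) (c * σ d))⁻¹ *
          ux U' (aL (c * σ d) L) (c * σ d))) ∈ SOR.Rl ℓ := by
    rw [← Finset.sum_sub_distrib]
    refine sum_mem fun σ hσ => ?_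
    have ha := (Finset.mem_filter.1 hσ).2.2
    exact ((((ux_go H hp c).1.mul (ux_go H hp (σ d)).1).mul (ux_go H hp (c * σ d)).2).mul
      (ux_go H ha (c * σ d)).1).diff (h12 (L, σ))
  rw [e13', e12', e13, e13, e12, e12]
  have h1 : ∀ a b a' b' : ℚ, a + b - (a' + b') = (a - a') + (b - b') := fun a b a' b' => by ring
  rw [h1]
  exact add_mem g13 g12

end Pool.Agent.PP.SE.H62P
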