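import Pool.Agent.ASE.Stmts9

/-!
# Squad ASE, row TPG: the defect group of the comparison block
-/

open scoped BigOperators

noncomputable section

namespace Pool.Agent.PP.SE.H62

open Pool.Agent.Helper51_AWC Pool.Agent.Helper79_WRA Pool.Agent.PP Pool.Agent.PP.KF
open Pool.Agent.PP.K9 Pool.Agent.PP.K9.H97 Pool.Agent.PP.H75 Pool.Agent.PP.T3 Pool.Agent.PP.SO
open Pool.Agent.PP.SD

attribute [local instance] Ideal.Quotient.field

theorem iG_apply {V₀ S G : Type} [CommGroup V₀] [Group S] [Group G] {φ : S →* MulAut V₀}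
    (j : V₀ ⋊[φ] S →* G) (v : V₀) : iG j v = j (SemidirectProduct.inl v) := rfl

theorem eq_one_of {A : Type} [Group A] {ℓ : ℕ} [Fact ℓ.Prime] {E : Subgroup A} [Finite E]
    (hE : ¬ ℓ ∣ Nat.card E) {a : A} {n : ℕ} (ha : a ∈ E) (h : a ^ ℓ ^ n = 1) : a = 1 := by
  have h1 : a ^ Nat.card E = 1 := by
    have h2 : (⟨a, ha⟩ : E) ^ Nat.card E = 1 := pow_card_eq_one'
    exact congrArg Subtype.val h2
  have h2 : (ℓ ^ n).Coprime (Nat.card E) :=
    Nat.Coprime.pow_left n ((Nat.Prime.coprime_iff_not_dvd Fact.out).2 hE)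
  have h3 : orderOf a ∣ Nat.gcd (ℓ ^ n) (Nat.card E) :=
    Nat.dvd_gcd (orderOf_dvd_of_pow_eq_one h) (orderOf_dvd_of_pow_eq_one h1)
  rw [h2.gcd_eq_one, Nat.dvd_one] at h3
  exact orderOf_eq_one_iff.1 h3

theorem right_pow {V₀ S : Type} [CommGroup V₀] [Group S] {φ : S →* MulAut V₀} (y : V₀ ⋊[φ] S)
    (n : ℕ) : (y ^ n).right = y.right ^ n := map_pow SemidirectProduct.rightHom y n

theorem tpg : TpgStmt := by
  intro ℓ hℓ M _ hM V₀ S G _ _ _ _ _ _ φ θ κ d π j hF hT hC
  have hji : Function.Injective j := fun a b h => by rw [← hC.sec a, ← hC.sec b, h]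
  have hii : Function.Injective (iG j) := fun a b h =>
    SemidirectProduct.inl_injective (hji h)
  have hcard : Nat.card (iG j).range = ℓ ^ 2 := by
    rw [← hF.cd]
    exact (Nat.card_congr (MonoidHom.ofInjective hii).toEquiv).symm
  refine ⟨?_, ?_, ?_⟩
  · rintro ⟨x, v, rfl⟩
    refine ⟨1, Subtype.ext ?_⟩
    change (iG j v) ^ ℓ ^ 1 = 1
    rw [pow_one, ← map_pow, hF.ex, map_one]
  · -- a nonzero value of `θ`
    obtain ⟨s, hs, hθ⟩ : ∃ s ∈ φ.ker, θ s ≠ 0 := by
      by_contra hcon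
      push Not at hcon
      exact hT.tp.gd.elim fun s hs => hs.2 (hcon s s.2)
    refine ⟨j (SemidirectProduct.inr s), ?_, ?_⟩
    · rw [Subgroup.mem_centralizer_iff]
      rintro _ ⟨v, rfl⟩
      rw [iG_apply, ← map_mul, ← map_mul]
      congr 1
      ext
      · simp only [SemidirectProduct.mul_left, SemidirectProduct.left_inl,
          SemidirectProduct.right_inl, SemidirectProduct.left_inr, SemidirectProduct.right_inr,
          map_one, mul_one, one_mul, MulAut.one_apply]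
        rw [MonoidHom.mem_ker.1 hs]
        rfl
      · simp
    · change eR φ θ (π (j (SemidirectProduct.inr s))) ≠ 0
      rw [hC.sec]
      unfold eR
      rw [if_pos (by simp)]
      simpa using hθ
  · intro Q hQ hg
    obtain ⟨x, hx, hex⟩ := hg
    rw [hcard]
    change eR φ θ (π x) ≠ 0 at hex
    unfold eR at hex
    by_cases hxl : (π x).left = 1
    swap
    · rw [if_neg hxl] at hex
      exact absurd rfl hex
    rw [if_pos hxl] at hex
    have hs : (π x).right ∈ φ.ker := by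
      by_contra hcon
      exact hex (hT.bx.supp _ hcon)
    -- the image of `Q` in `S` acts trivially
    have h1 : ∀ z ∈ Q, (π z).right ∈ φ.ker := by
      intro z hz
      obtain ⟨n, hn⟩ := hQ ⟨z, hz⟩
      have hn' : z ^ ℓ ^ n = 1 := congrArg Subtype.val hn
      rw [MonoidHom.mem_ker]
      refine eq_one_of hF.cp (n := n) ⟨(π z).right, rfl⟩ ?_
      rw [← map_pow, ← right_pow, ← map_pow, hn', map_one]
      simp
    obtain ⟨Q', hQ'⟩ : ∃ Q' : Subgroup φ.ker,
        Q' = (Q.map (SemidirectProduct.rightHom.comp π)).subgroupOf φ.ker := ⟨_, rfl⟩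
    have h2 : Nat.card Q' ≤ Nat.card (⊥ : Subgroup φ.ker) := by
      refine hT.tp.mx Q' ?_ ⟨⟨(π x).right, hs⟩, ?_, hex⟩
      · rintro ⟨⟨q, hq⟩, hq'⟩
        rw [hQ', Subgroup.mem_subgroupOf] at hq'
        obtain ⟨z, hz, hzq⟩ := hq'
        obtain ⟨n, hn⟩ := hQ ⟨z, hz⟩
        have hn' : z ^ ℓ ^ n = 1 := congrArg Subtype.val hn
        refine ⟨n, Subtype.ext (Subtype.ext ?_)⟩
        change q ^ ℓ ^ n = 1
        change (SemidirectProduct.rightHom.comp π) z = q at hzq
        rw [← hzq, ← map_pow, hn', map_one]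
      · rw [Subgroup.mem_centralizer_iff]
        rintro ⟨q, hq⟩ hq'
        rw [SetLike.mem_coe, hQ', Subgroup.mem_subgroupOf] at hq'
        obtain ⟨z, hz, hzq⟩ := hq'
        change (SemidirectProduct.rightHom.comp π) z = q at hzq
        apply Subtype.ext
        change q * (SemidirectProduct.rightHom.comp π) x =
          (SemidirectProduct.rightHom.comp π) x * q
        rw [← hzq, ← map_mul, ← map_mul, Subgroup.mem_centralizer_iff.1 hx z hz]
    rw [Subgroup.card_bot] at h2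
    have h3 : ∀ z ∈ Q, (π z).right = 1 := by
      intro z hz
      have h4 : Q' = ⊥ := Subgroup.card_eq_one.1 (le_antisymm h2 Nat.card_pos)
      have h5 : (⟨(π z).right, h1 z hz⟩ : φ.ker) ∈ Q' := by
        rw [hQ', Subgroup.mem_subgroupOf]
        exact ⟨z, hz, rfl⟩
      rw [h4, Subgroup.mem_bot] at h5
      exact congrArg Subtype.val h5
    rw [← hF.cd]
    refine Nat.card_le_card_of_injective (fun z : Q => (π z).left) ?_
    rintro ⟨z, hz⟩ ⟨w, hw⟩ hzw
    change (π z).left = (π w).left at hzw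
    have h4 : π z = π w := SemidirectProduct.ext hzw ((h3 z hz).trans (h3 w hw).symm)
    have h5 : z⁻¹ * w ∈ π.ker := by
      rw [MonoidHom.mem_ker, map_mul, map_inv, h4, inv_mul_cancel]
    obtain ⟨n, hn⟩ := hQ ⟨z⁻¹ * w, Q.mul_mem (Q.inv_mem hz) hw⟩
    have hn' : (z⁻¹ * w) ^ ℓ ^ n = 1 := congrArg Subtype.val hn
    have h6 := eq_one_of hC.ck h5 hn'
    exact Subtype.ext (inv_mul_eq_one.1 h6)

end Pool.Agent.PP.SE.H62
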